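import Pool.Agent.X196.IA.Coh
import Pool.Agent.X196.IA.OutInf
import Pool.Agent.X196.IA.NonIAS
import Pool.Agent.H425R3.Tree

set_option autoImplicit false

/-!
A finitely generated residually finite group whose outer automorphism group is infinite and
residually finite and which is not inner automorphism separable.

Let `Γ` be a finitely generated infinite residually finite group in which every element has order
a power of two, `Q = Γ × Γ`, and let `G` be the semidirect product of the augmentation ideal of the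
group algebra of `Q` over the field with three elements with `Q`.
-/

namespace Pool.Agent.Results.MP_48d09b_al.NotInnerSeparable

open Pool.Agent.X196.IA

theorem prod_rf {Γ : Type} [Group Γ]
    (h : ∀ g : Γ, g ≠ 1 → ∃ N : Subgroup Γ, N.Normal ∧ N.index ≠ 0 ∧ g ∉ N) :
    ∀ g : Γ × Γ, g ≠ 1 → ∃ N : Subgroup (Γ × Γ), N.Normal ∧ N.FiniteIndex ∧ g ∉ N := by
  intro g hg
  by_cases h1 : g.1 = 1
  · have h2 : g.2 ≠ 1 := fun h2 => hg (Prod.ext h1 h2)
    obtain ⟨N, hN, hi, hn⟩ := h g.2 h2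
    have : N.FiniteIndex := ⟨hi⟩
    have hfin : Finite (Γ ⧸ N) := Subgroup.finite_quotient_of_finiteIndex
    exact ⟨((QuotientGroup.mk' N).comp (MonoidHom.snd Γ Γ)).ker, inferInstance,
      Subgroup.finiteIndex_ker _, fun h => hn ((QuotientGroup.eq_one_iff g.2).1 h)⟩
  · obtain ⟨N, hN, hi, hn⟩ := h g.1 h1
    have : N.FiniteIndex := ⟨hi⟩
    have hfin : Finite (Γ ⧸ N) := Subgroup.finite_quotient_of_finiteIndex
    exact ⟨((QuotientGroup.mk' N).comp (MonoidHom.fst Γ Γ)).ker, inferInstance,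
      Subgroup.finiteIndex_ker _, fun h => hn ((QuotientGroup.eq_one_iff g.1).1 h)⟩

theorem prod_fg {Γ : Type} [Group Γ] (S : Finset Γ) (hS : Subgroup.closure (S : Set Γ) = ⊤) :
    ∃ T : Finset (Γ × Γ), Subgroup.closure (T : Set (Γ × Γ)) = ⊤ := by
  classical
  refine ⟨S.image (MonoidHom.inl Γ Γ) ∪ S.image (MonoidHom.inr Γ Γ), ?_⟩
  rw [eq_top_iff]
  intro g _
  set H := Subgroup.closure
    ((S.image (MonoidHom.inl Γ Γ) ∪ S.image (MonoidHom.inr Γ Γ) : Finset (Γ × Γ)) : Set (Γ × Γ))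
  have h1 : ∀ f : Γ →* Γ × Γ, (∀ s ∈ S, f s ∈ H) → ∀ x, f x ∈ H := by
    intro f hf x
    have hx : x ∈ Subgroup.closure (S : Set Γ) := by rw [hS]; trivial
    have h2 : Subgroup.closure (S : Set Γ) ≤ H.comap f := (Subgroup.closure_le _).2 hf
    exact h2 hx
  have h3 : g = MonoidHom.inl Γ Γ g.1 * MonoidHom.inr Γ Γ g.2 := by
    ext <;> simp
  rw [h3]
  refine H.mul_mem (h1 _ ?_ _) (h1 _ ?_ _)
  · intro s hs
    apply Subgroup.subset_closure
    rw [Finset.mem_coe, Finset.mem_union]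
    exact Or.inl (Finset.mem_image_of_mem _ hs)
  · intro s hs
    apply Subgroup.subset_closure
    rw [Finset.mem_coe, Finset.mem_union]
    exact Or.inr (Finset.mem_image_of_mem _ hs)

/-- There is a finitely generated residually finite group `G` such that `Out(G)` is infinite and
residually finite, but `G` is not inner automorphism separable. -/
theorem result : ∃ (G : Type) (_ : Group G),
    Group.FG G ∧ ResFin G ∧ Infinite (Out G) ∧ ResFin (Out G) ∧ ¬ IAS G := by
  let Γ := Pool.Agent.H425R3.Tr.G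
  have hQ : Hyp (Γ × Γ) := hyp_prod Pool.Agent.H425R3.Tr.S Pool.Agent.H425R3.Tr.S_closure (by
    intro x
    obtain ⟨u, hu⟩ := Pool.Agent.H425R3.Tr.word_of_G x
    exact ⟨_, Pool.Agent.H425R3.Tr.G_pow x u hu u.length le_rfl⟩)
  obtain ⟨T, hT⟩ := prod_fg Pool.Agent.H425R3.Tr.S Pool.Agent.H425R3.Tr.S_closure
  have hs : Sep (Γ × Γ) := sep_of T hT (prod_rf Pool.Agent.H425R3.Tr.G_rf)
  have hfg : Group.FG (Γ × Γ) := Group.fg_iff.2 ⟨T, hT, T.finite_toSet⟩
  exact ⟨GG (Γ × Γ), inferInstance, fg_GG T hT, resFin_GG hs, out_infinite hQ hfg,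
    out_resFin hQ hs, not_ias hQ⟩

end Pool.Agent.Results.MP_48d09b_al.NotInnerSeparable
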